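import Pool.Agent.L0h7.FO.Defs

/-! # Local indicability is inherited along foldings (helper90) -/

set_option autoImplicit false

namespace Pool.Agent.L0h90.FO

open Matrix LaurentPolynomial Pool.Agent.TH107.RF Pool.Agent.TH107.RF.RFilt
open Pool.Agent.L0h7.FO (Folds S_FOLD)

section
variable {S C : Type} [Fintype S] [DecidableEq S] [Fintype C] [DecidableEq C]
  {M : CoxeterMatrix S} {M' : CoxeterMatrix C} {κ : S → C} {m : ℕ}

/-- the folding homomorphism -/
def fold (h : Folds M M' κ m) : Art M →* Art M' :=
  PresentedGroup.toGroup (f := fun s => sg M' (κ s)) (by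
    rintro r ⟨i, j, h0, rfl⟩
    rw [map_mul, map_inv, map_alt, map_alt, FreeGroup.lift_apply_of, FreeGroup.lift_apply_of,
      mul_inv_eq_one]
    by_cases hk : κ i = κ j
    · rw [hk]
    · rcases h.outer i j hk with h1 | h1
      · exact absurd h1 h0
      · rw [h1] at h0 ⊢
        exact sg_braid h0)

lemma fold_sg (h : Folds M M' κ m) (s : S) : fold h (sg M s) = sg M' (κ s) :=
  PresentedGroup.toGroup.of _

/-! ### the matrices of a folded representation -/

section alg
variable {K : Type} [CommRing K]

/-- the indicator matrix of the classes -/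
def EE (κ : S → C) (K : Type) [CommRing K] : Matrix S C K := fun s c => if κ s = c then 1 else 0

omit [DecidableEq S] [Fintype S] in
lemma EE_mul (G : Matrix C C K) (s : S) (c : C) : (EE κ K * G) s c = G (κ s) c := by
  rw [Matrix.mul_apply, Finset.sum_eq_single (κ s)]
  · rw [EE, if_pos rfl, one_mul]
  · intro d _ hd
    rw [EE, if_neg (fun h => hd h.symm), zero_mul]
  · intro h; exact absurd (Finset.mem_univ _) h

omit [DecidableEq S] [Fintype S] in
lemma EE_mul_mul (G : Matrix C C K) (s t : S) :
    (EE κ K * G * (EE κ K)ᵀ) s t = G (κ s) (κ t) := by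
  rw [Matrix.mul_apply, Finset.sum_eq_single (κ t)]
  · rw [EE_mul, Matrix.transpose_apply, EE, if_pos rfl, mul_one]
  · intro d _ hd
    rw [Matrix.transpose_apply, EE, if_neg (fun h => hd h.symm), mul_zero]
  · intro h; exact absurd (Finset.mem_univ _) h

lemma EE_single (s : S) :
    (EE κ K)ᵀ * single s s (1 : K) * EE κ K = single (κ s) (κ s) 1 := by
  ext1 c d
  rw [Matrix.mul_apply, Finset.sum_eq_single s]
  · rw [Matrix.mul_single_apply_same, Matrix.transpose_apply, single_apply]
    change (if κ s = c then (1 : K) else 0) * 1 * (if κ s = d then (1 : K) else 0) = _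
    by_cases h1 : κ s = c
    · by_cases h2 : κ s = d
      · rw [if_pos h1, if_pos h2, if_pos ⟨h1, h2⟩, one_mul, one_mul]
      · have h3 : ¬ (κ s = c ∧ κ s = d) := fun h => h2 h.2
        rw [if_neg h2, if_neg h3, mul_zero]
    · have h3 : ¬ (κ s = c ∧ κ s = d) := fun h => h1 h.1
      rw [if_neg h1, if_neg h3, zero_mul, zero_mul]
  · intro t _ ht
    rw [Matrix.mul_single_apply_of_ne (hbj := ht), zero_mul]
  · intro h; exact absurd (Finset.mem_univ _) h

variable (P : Par M K) (b : S → S → K) (P' : Par M' K) (b' : C → C → K)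

/-- block sums of the matrix of a group element -/
lemma block (h : Folds M M' κ m) (hG : ∀ s t, gram P b s t = gram P' b' (κ s) (κ t))
    (g : Art M) : (EE κ K)ᵀ * Cm P b g * EE κ K = Cm P' b' (fold h g) := by
  have hG' : gram P b = EE κ K * gram P' b' * (EE κ K)ᵀ := by
    ext1 s t
    rw [hG, EE_mul_mul]
  have key : g ∈ (⊤ : Subgroup (Art M)) := trivial
  rw [← cl_univ, cl] at key
  induction key using Subgroup.closure_induction with
  | mem x hx =>
    obtain ⟨s, -, rfl⟩ := hx
    rw [Cm_sg, fold_sg, Cm_sg, EE_single]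
  | one => rw [map_one, Cm_one, Cm_one, Matrix.mul_zero, Matrix.zero_mul]
  | mul x y _ _ hx hy =>
    rw [map_mul, Cm_mul, Cm_mul, ← hx, ← hy, hG']
    simp only [Matrix.mul_add, Matrix.add_mul, Matrix.mul_assoc]
  | inv x _ hx =>
    rw [map_inv]
    apply Cm_inv_unique
    rw [← hx]
    have e : (EE κ K)ᵀ * Cm P b x⁻¹ * EE κ K + (EE κ K)ᵀ * Cm P b x * EE κ K +
        (EE κ K)ᵀ * Cm P b x⁻¹ * EE κ K * gram P' b' * ((EE κ K)ᵀ * Cm P b x * EE κ K) =
        (EE κ K)ᵀ * (Cm P b x⁻¹ + Cm P b x + Cm P b x⁻¹ * gram P b * Cm P b x) * EE κ K := by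
      rw [hG']
      simp only [Matrix.mul_add, Matrix.add_mul, Matrix.mul_assoc]
    rw [e, Cm_inv_left, Matrix.mul_zero, Matrix.zero_mul]

/-- the dichotomy for folded representations -/
lemma fold_hom (h : Folds M M' κ m) (hG : ∀ s t, gram P b s t = gram P' b' (κ s) (κ t))
    (htf : ∀ (n : ℕ) (x : K), n ≠ 0 → n • x = 0 → x = 0)
    {H : Subgroup (Art M)} (hH : H.FG) (hker : ∀ g ∈ H, fold h g = 1) :
    (∃ φ : H →* Multiplicative ℤ, ∃ k, φ k ≠ 1) ∨ ∀ g ∈ H, Cm P b g = 0 := by
  classical
  have hG' : gram P b = EE κ K * gram P' b' * (EE κ K)ᵀ := by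
    ext1 s t
    rw [hG, EE_mul_mul]
  by_contra hcon
  rw [not_or] at hcon
  obtain ⟨hno, hex⟩ := hcon
  have : Group.FG H := (Group.fg_iff_subgroup_fg H).2 hH
  have hB : ∀ g ∈ H, (EE κ K)ᵀ * (Cm P b g * EE κ K) = 0 := by
    intro g hg
    rw [← Matrix.mul_assoc, block P b P' b' h hG, hker g hg, Cm_one]
  have hadd : ∀ g ∈ H, ∀ k ∈ H, Cm P b (g * k) * EE κ K =
      Cm P b g * EE κ K + Cm P b k * EE κ K := by
    intro g _ k hk
    rw [Cm_mul, hG']
    have e : (Cm P b g + Cm P b k + Cm P b g * (EE κ K * gram P' b' * (EE κ K)ᵀ) *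
        Cm P b k) * EE κ K = Cm P b g * EE κ K + Cm P b k * EE κ K +
        Cm P b g * EE κ K * gram P' b' * ((EE κ K)ᵀ * (Cm P b k * EE κ K)) := by
      simp only [Matrix.add_mul, Matrix.mul_assoc]
    rw [e, hB k hk, Matrix.mul_zero, add_zero]
  have hrs : ∀ g ∈ H, Cm P b g * EE κ K = 0 := by
    intro g hg
    ext1 x c
    by_contra hne
    apply hno
    let f : H →* Multiplicative K :=
      MonoidHom.mk' (fun g => Multiplicative.ofAdd ((Cm P b (g : Art M) * EE κ K) x c))
        (fun a d => by
          change Multiplicative.ofAdd ((Cm P b ((a : Art M) * d) * EE κ K) x c) = _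
          rw [hadd _ a.2 _ d.2]; rfl)
    exact to_int htf f ⟨⟨g, hg⟩, hne⟩
  apply hex
  intro g hg
  ext1 x s
  by_contra hne
  apply hno
  let f : H →* Multiplicative K :=
    MonoidHom.mk' (fun g => Multiplicative.ofAdd (Cm P b (g : Art M) x s)) (fun a d => by
      change Multiplicative.ofAdd (Cm P b ((a : Art M) * d) x s) = _
      have e : Cm P b ((a : Art M) * d) = Cm P b (a : Art M) + Cm P b (d : Art M) := by
        rw [Cm_mul, hG', ← Matrix.mul_assoc, ← Matrix.mul_assoc, hrs _ a.2]
        simp only [Matrix.zero_mul, add_zero]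
      rw [e]; rfl)
  exact to_int htf f ⟨⟨g, hg⟩, hne⟩

end alg

/-! ### shifting the variables by a function -/

section shift
variable {L : Type} [CommRing L] (P : Par M L) (c : S → S → L)

/-- the shifted variables -/
noncomputable def bsf (c : S → S → L) : S → S → FA S L :=
  fun s t => bf S L s t + algebraMap L (FA S L) (c s t)

/-- the shift of the variables -/
noncomputable def shff (c : S → S → L) : FA S L →ₐ[L] FA S L :=
  MonoidAlgebra.lift L (FA S L) (FreeMonoid (S × S)) (FreeMonoid.lift (fun p => bsf c p.1 p.2))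

omit [Fintype S] [DecidableEq S] in
lemma shff_bf (s t : S) : shff c (bf S L s t) = bsf c s t := by
  rw [shff, bf, MonoidAlgebra.lift_single, FreeMonoid.lift_eval_of, one_smul]

omit [Fintype S] [DecidableEq S] in
lemma shff_inj : Function.Injective (shff c) := by
  have h : (shff (fun s t => -(c s t))).comp (shff c) = AlgHom.id L (FA S L) := by
    apply MonoidAlgebra.algHom_ext'
    · apply FreeMonoid.hom_eq
      intro p
      change shff (fun s t => -(c s t)) (shff c (bf S L p.1 p.2)) = bf S L p.1 p.2
      rw [shff_bf, bsf, map_add, shff_bf, bsf, AlgHom.commutes, map_neg]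
      abel
    · ext
  intro x y hxy
  have := congrArg (shff (fun s t => -(c s t))) hxy
  have h1 : ∀ z, shff (fun s t => -(c s t)) (shff c z) = z := fun z => DFunLike.congr_fun h z
  rwa [h1, h1] at this

lemma shff_faithful (hf : ∀ g : Art M, Cm P (bf S L) g = 0 → g = 1) (g : Art M)
    (hg : Cm P (bsf c) g = 0) : g = 1 := by
  have e : Cm P (bsf c) g = (Cm P (bf S L) g).map (shff c : FA S L →+* FA S L) := by
    apply Cm_nat
    intro a b
    by_cases hab : a = b
    · subst hab
      rw [gram_self, gram_self]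
      exact (shff c).commutes _
    · by_cases h0 : M a b = 0
      · rw [gram_inf _ _ hab h0, gram_inf _ _ hab h0]
        exact shff_bf c a b
      · rw [gram_fin _ _ hab h0, gram_fin _ _ hab h0]
        exact (shff c).commutes _
  apply hf
  rw [e] at hg
  ext1 x s
  have h1 := congrFun (congrFun hg x) s
  rw [Matrix.map_apply] at h1
  have h2 : shff c (Cm P (bf S L) g x s) = shff c 0 := by rw [map_zero]; exact h1
  exact shff_inj c h2

end shift

/-! ### the specialised representation -/

/-- naturality of the Gram matrix with infinite entries zero -/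
lemma evm_gram (m : ℕ) (x y : C) :
    evm m (gram (PR M') (fun _ _ => (0 : ℝ[T;T⁻¹])) x y) =
      gram ((PR M').map (evm m)) (fun _ _ => (0 : ℂ)) x y := by
  by_cases hxy : x = y
  · subst hxy
    rw [gram_self, gram_self]
    simp only [Algebra.algebraMap_self, RingHom.id_apply]
    simp only [Par.map, map_neg, map_add, map_one, map_pow]
  · by_cases h0 : M' x y = 0
    · rw [gram_inf _ _ hxy h0, gram_inf _ _ hxy h0, map_zero]
    · rw [gram_fin _ _ hxy h0, gram_fin _ _ hxy h0]
      simp only [Algebra.algebraMap_self, RingHom.id_apply]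
      simp only [Par.map, map_mul]

/-- the specialised Gram matrix depends on the classes only -/
lemma gram_classes (h : Folds M M' κ m) (s t : S) :
    gram ((PR M).map (evm m))
      (fun s t => gram ((PR M').map (evm m)) (fun _ _ => (0 : ℂ)) (κ s) (κ t)) s t =
      gram ((PR M').map (evm m)) (fun _ _ => (0 : ℂ)) (κ s) (κ t) := by
  by_cases hst : s = t
  · subst hst
    rw [gram_self, gram_self]
    rfl
  · by_cases h0 : M s t = 0
    · rw [gram_inf _ _ hst h0]
    · rw [gram_fin _ _ hst h0]
      by_cases hk : κ s = κ t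
      · have hm : M s t = m := by
          rcases h.inner s t hst hk with h1 | h1
          · exact absurd h1 h0
          · exact h1
        rw [← hk, gram_self]
        change evm m (T 1) * evm m (LaurentPolynomial.C (lamR M s t)) = -(1 + (evm m (T 1)) ^ 2)
        rw [evm_T, evm_C, lamR, hm]
        linear_combination zm_eq m
      · have hm : M s t = M' (κ s) (κ t) := by
          rcases h.outer s t hk with h1 | h1
          · exact absurd h1 h0
          · exact h1
        rw [gram_fin _ _ hk (by rw [← hm]; exact h0)]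
        change evm m (T 1) * evm m (LaurentPolynomial.C (lamR M s t)) =
          evm m (T 1) * evm m (LaurentPolynomial.C (lamR M' (κ s) (κ t)))
        rw [lamR, lamR, hm]

/-- the specialised representation is the augmentation of the shifted one -/
lemma nat_augf (m : ℕ) (g : Art M) :
    Cm ((PR M).map (evm m))
      (fun s t => gram ((PR M').map (evm m)) (fun _ _ => (0 : ℂ)) (κ s) (κ t)) g =
      (Cm (PR M) (bsf (fun s t => gram (PR M') (fun _ _ => (0 : ℝ[T;T⁻¹])) (κ s) (κ t))) g).map
        (aug (evm m) S) := by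
  classical
  have key : ∀ x : ℝ[T;T⁻¹], aug (evm m) S (algebraMap ℝ[T;T⁻¹] (FA S ℝ[T;T⁻¹]) x) = evm m x := by
    intro x
    rw [aug_apply, coeff_algebraMap_one]
  apply Cm_nat
  intro a b
  by_cases hab : a = b
  · subst hab
    rw [gram_self, gram_self, key]
    change evm m (-(1 + (T 1) ^ 2)) = -(1 + (evm m (T 1)) ^ 2)
    rw [map_neg, map_add, map_one, map_pow]
  · by_cases h0 : M a b = 0
    · rw [gram_inf _ _ hab h0, gram_inf _ _ hab h0, bsf, map_add, key, aug_apply, bf,
        MonoidAlgebra.coeff_single, Finsupp.single_apply, if_neg, map_zero, zero_add, evm_gram]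
      intro h
      have := congrArg FreeMonoid.length h
      simp at this
    · rw [gram_fin _ _ hab h0, gram_fin _ _ hab h0, key]
      change evm m (T 1 * LaurentPolynomial.C (lamR M a b)) =
        evm m (T 1) * evm m (LaurentPolynomial.C (lamR M a b))
      rw [map_mul]

end

/-- Local indicability of Artin groups without triangles is inherited along foldings. -/
theorem li_fold {S C : Type} [Fintype S] [DecidableEq S] [Fintype C] [DecidableEq C]
    {M : CoxeterMatrix S} {M' : CoxeterMatrix C} {κ : S → C} {m : ℕ} (hR : RankTwo M)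
    (h : Folds M M' κ m) (hL : LI (Art M')) : LI (Art M) := by
  intro H hH hne
  by_cases hex : ∃ g ∈ H, fold h g ≠ 1
  · obtain ⟨g, hg, hne'⟩ := hex
    exact hL.of_hom hH ((fold h).comp H.subtype) ⟨⟨g, hg⟩, hne'⟩
  · push Not at hex
    rcases fold_hom ((PR M).map (evm m))
      (fun s t => gram ((PR M').map (evm m)) (fun _ _ => (0 : ℂ)) (κ s) (κ t))
      ((PR M').map (evm m)) (fun _ _ => (0 : ℂ)) h (gram_classes h)
      (fun n x hn hx => by
        rw [nsmul_eq_mul] at hx
        rcases mul_eq_zero.1 hx with h | h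
        · exact absurd (Nat.cast_eq_zero.1 h) hn
        · exact h) hH hex with h1 | h1
    · exact h1
    · set cc : S → S → ℝ[T;T⁻¹] :=
        fun s t => gram (PR M') (fun _ _ => (0 : ℝ[T;T⁻¹])) (κ s) (κ t) with hcc
      have hfaith : ∀ g : Art M, Cm (PR M) (bsf cc) g = 0 → g = 1 :=
        fun g hg => shff_faithful (PR M) cc (fun g hg => faithful0 hR hg) g hg
      apply li_of_filt (PR M) (bsf cc) (filP S (RingHom.ker (evm m)) unit_nat 1)
        (filP_sep (bsf cc) hfaith (ker_evm_ne m) 1) hH hne
      intro g hg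
      rw [mem_KF]
      intro x s w
      by_cases hw : w = 1
      · subst hw
        have h2 := h1 g hg
        rw [nat_augf] at h2
        have h3 := congrFun (congrFun h2 x) s
        rw [Matrix.map_apply, aug_apply] at h3
        have e : 1 - 1 * (1 : FreeMonoid (S × S)).length = 1 := rfl
        rw [e, pow_one, RingHom.mem_ker]
        exact h3
      · have : 1 ≤ w.length := by
          rcases Nat.eq_zero_or_pos w.length with h0 | h0
          · exact absurd (FreeMonoid.length_eq_zero.1 h0) hw
          · exact h0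
        have e : 1 - 1 * w.length = 0 := by omega
        rw [e, pow_zero, Ideal.one_eq_top]
        trivial

/-- Module F1. -/
theorem s_fold : S_FOLD := fun hR h hL => li_fold hR h hL

end Pool.Agent.L0h90.FO
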